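import Pool.Agent.Lib_helper16.Mediangle.X32b

/-!
# A monolith which is not a convex subgraph of a product of complete graphs and finite Coxeter graphs

The tope graph of the simplicial arrangement of the seven planes
`x=0, y=0, z=0, x+y=0, x+z=0, y+z=0, x+y+z=0` of `ℝ³` (32 chambers, 6 squares and 12 hexagons)
is a mediangle graph whose hyperplanes are pairwise transverse, so it is a monolith of itself.
It has vertices surrounded by three hexagons next to vertices surrounded by a square and two
hexagons; comparing the labels of the edges around two hexagons and a square shows that it is not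
isomorphic to a convex subgraph of a product of complete graphs and finite Coxeter graphs.
-/

namespace Pool.Agent.Results.MP_b747c0_co.Monolith

open Pool.Agent.Lib_helper16.Mediangle

universe u v w

/-- Some mediangle graph has a monolith that is not isomorphic to any convex subgraph of any
Cartesian product (with any number of factors) of complete graphs and finite Coxeter graphs. -/
theorem result :
    ∃ (V : Type) (G : SimpleGraph V) (Y : Set V), IsMediangle G ∧ IsMonolith G Y ∧
      ∀ (ι : Type u) (P : ι → Type v) (H : ∀ i, SimpleGraph (P i)),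
        (∀ i, H i = ⊤ ∨ IsFiniteCoxeterGraph.{v, w} (H i)) →
        ∀ C : Set (∀ i, P i), IsConvex (cartesianProduct H) C →
          IsEmpty (G.induce Y ≃g (cartesianProduct H).induce C) := by
  refine ⟨Fin 32, X, Set.univ, X_mediangle, X_monolith, ?_⟩
  intro ι P H hH C hC
  refine ⟨fun e => ?_⟩
  set φ : Fin 32 → ∀ i, P i := fun x => (e ⟨x, Set.mem_univ x⟩ : C).1 with hφ
  have hemb : ConvEmb X (cp H) φ := by
    refine ⟨?_, ?_, ?_⟩
    · intro x y h
      have h1 : e ⟨x, Set.mem_univ x⟩ = e ⟨y, Set.mem_univ y⟩ := Subtype.ext h
      have h2 := e.injective h1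
      exact congrArg Subtype.val h2
    · intro x y
      exact (e.map_adj_iff (v := ⟨x, Set.mem_univ x⟩) (w := ⟨y, Set.mem_univ y⟩)).symm
    · intro x y p hp
      have hpC : p ∈ C := hC _ (e ⟨x, Set.mem_univ x⟩).2 _ (e ⟨y, Set.mem_univ y⟩).2 hp
      obtain ⟨⟨z, hz⟩, hz'⟩ := e.surjective ⟨p, hpC⟩
      refine ⟨z, ?_⟩
      exact congrArg Subtype.val hz'
  refine no_embedding X_config hemb (fun i => ?_)
  rcases hH i with h | ⟨B, M, W, hW, -, cs, hcs⟩
  · exact Or.inl h
  · exact Or.inr ⟨B, M, W, hW, cs, hcs⟩

end Pool.Agent.Results.MP_b747c0_co.Monolith
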